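import Pool.Agent.Helper3.ND.Basic

/-! Every integer prime to `3` has a non-periodic preimage in a prescribed class modulo `3 ^ K0`, at bounded depth. -/

namespace Pool.Agent.Helper25.PD

open Pool.Agent.Helper3.ND

/-- `2 ^ (2 * 3 ^ n) = 1 + 3 ^ (n + 1) * u` with `u` prime to `3` -/
theorem two_pow_order (n : ℕ) : ∃ u : ℤ, (2 : ℤ) ^ (2 * 3 ^ n) = 1 + 3 ^ (n + 1) * u ∧ ¬ (3 : ℤ) ∣ u := by
  induction n with
  | zero => exact ⟨1, by norm_num, by norm_num⟩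
  | succ n ih =>
    obtain ⟨u, h1, h2⟩ := ih
    refine ⟨u + 3 ^ (n + 1) * u ^ 2 + 3 ^ (2 * n + 1) * u ^ 3, ?_, ?_⟩
    · have e1 : (2 : ℤ) ^ (2 * 3 ^ (n + 1)) = (2 ^ (2 * 3 ^ n)) ^ 3 := by
        rw [← pow_mul]
        congr 1
        ring
      rw [e1, h1]
      ring
    · intro h
      apply h2
      have h3 : (3 : ℤ) ∣ 3 ^ (n + 1) * u ^ 2 + 3 ^ (2 * n + 1) * u ^ 3 := by
        refine ⟨3 ^ n * u ^ 2 + 3 ^ (2 * n) * u ^ 3, by ring⟩
      have h4 := dvd_sub h h3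
      have e : u + 3 ^ (n + 1) * u ^ 2 + 3 ^ (2 * n + 1) * u ^ 3 - (3 ^ (n + 1) * u ^ 2 + 3 ^ (2 * n + 1) * u ^ 3) = u := by
        ring
      rwa [e] at h4

/-- `2` is a primitive root modulo `3 ^ (n + 1)` -/
theorem two_reach (n : ℕ) : ∀ a c : ℤ, ¬ (3 : ℤ) ∣ a → ¬ (3 : ℤ) ∣ c → ∃ e : ℕ, (3 : ℤ) ^ (n + 1) ∣ 2 ^ e * a - c := by
  induction n with
  | zero =>
    intro a c ha hc
    by_cases h : (3 : ℤ) ∣ a - c
    · exact ⟨0, by simpa using h⟩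
    · refine ⟨1, ?_⟩
      rw [zero_add, pow_one, pow_one]
      have h1 : a % 3 = 1 ∨ a % 3 = 2 := by omega
      have h2 : c % 3 = 1 ∨ c % 3 = 2 := by omega
      rcases h1 with h1 | h1 <;> rcases h2 with h2 | h2 <;> omega
  | succ n ih =>
    intro a c ha hc
    obtain ⟨e, q, hq⟩ := ih a c ha hc
    obtain ⟨u, hu, hu3⟩ := two_pow_order n
    -- `2 ^ (e + 2 * 3 ^ n * j) * a ≡ 2 ^ e * a * (1 + j * 3 ^ (n+1) * u)`
    have hj : ∀ j : ℕ, (3 : ℤ) ^ (n + 2) ∣ (2 : ℤ) ^ (2 * 3 ^ n * j) - (1 + j * (3 ^ (n + 1) * u)) := by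
      intro j
      induction j with
      | zero => simp
      | succ j ihj =>
        obtain ⟨w, hw⟩ := ihj
        refine ⟨w * (1 + 3 ^ (n + 1) * u) + j * 3 ^ n * u ^ 2, ?_⟩
        have e1 : (2 : ℤ) ^ (2 * 3 ^ n * (j + 1)) = 2 ^ (2 * 3 ^ n * j) * 2 ^ (2 * 3 ^ n) := by
          rw [← pow_add]
          congr 1
        have e2 : (2 : ℤ) ^ (2 * 3 ^ n * j) = 3 ^ (n + 2) * w + (1 + j * (3 ^ (n + 1) * u)) := by
          rw [← hw]
          ring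
        rw [e1, e2, hu]
        push_cast
        ring
    -- choose `j` with `q + j * u * 2 ^ e * a` divisible by `3`
    have hA : ¬ (3 : ℤ) ∣ u * (2 ^ e * a) := by
      intro h
      have hp : Prime (3 : ℤ) := Int.prime_three
      rcases hp.dvd_or_dvd h with h | h
      · exact hu3 h
      · rcases hp.dvd_or_dvd h with h | h
        · have := hp.dvd_of_dvd_pow h
          omega
        · exact ha h
    obtain ⟨j, hjj⟩ : ∃ j : ℕ, (3 : ℤ) ∣ q + j * (u * (2 ^ e * a)) := by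
      generalize u * (2 ^ e * a) = A at hA
      by_cases h0 : (3 : ℤ) ∣ q
      · exact ⟨0, by simpa using h0⟩
      · by_cases h1 : (3 : ℤ) ∣ q + A
        · exact ⟨1, by simpa using h1⟩
        · refine ⟨2, ?_⟩
          push_cast
          have h2 : q % 3 = 1 ∨ q % 3 = 2 := by omega
          have h3 : A % 3 = 1 ∨ A % 3 = 2 := by omega
          rcases h2 with h2 | h2 <;> rcases h3 with h3 | h3 <;> omega
    refine ⟨e + 2 * 3 ^ n * j, ?_⟩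
    obtain ⟨w, hw⟩ := hj j
    obtain ⟨z, hz⟩ := hjj
    refine ⟨z + w * (2 ^ e * a), ?_⟩
    have e2 : (2 : ℤ) ^ (2 * 3 ^ n * j) = 3 ^ (n + 2) * w + (1 + j * (3 ^ (n + 1) * u)) := by
      rw [← hw]
      ring
    have e3 : (2 : ℤ) ^ e * a = 3 ^ (n + 1) * q + c := by
      rw [← hq]
      ring
    have e4 : (3 : ℤ) ^ (n + 1 + 1) * z = 3 ^ (n + 1) * (q + j * (u * (2 ^ e * a))) := by
      rw [hz]
      ring
    rw [pow_add, e2]
    calc (2 : ℤ) ^ e * (3 ^ (n + 2) * w + (1 + j * (3 ^ (n + 1) * u))) * a - c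
        = 3 ^ (n + 2) * (w * (2 ^ e * a)) + (2 ^ e * a - c) + 3 ^ (n + 1) * (j * (u * (2 ^ e * a))) := by ring
      _ = 3 ^ (n + 2) * (w * (2 ^ e * a)) + 3 ^ (n + 1) * (q + j * (u * (2 ^ e * a))) := by
          rw [hq]
          ring
      _ = 3 ^ (n + 1 + 1) * (z + w * (2 ^ e * a)) := by
          rw [← e4]
          ring

/-- with prescribed range of exponents -/
theorem two_reach_range (n E1 : ℕ) (a c : ℤ) (ha : ¬ (3 : ℤ) ∣ a) (hc : ¬ (3 : ℤ) ∣ c) :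
    ∃ e : ℕ, E1 ≤ e ∧ e < E1 + 2 * 3 ^ n ∧ (3 : ℤ) ^ (n + 1) ∣ 2 ^ e * a - c ∧
      (3 : ℤ) ^ (n + 1) ∣ 2 ^ (e + 2 * 3 ^ n) * a - c := by
  obtain ⟨e0, he0⟩ := two_reach n a c ha hc
  obtain ⟨u, hu, _⟩ := two_pow_order n
  set φ := 2 * 3 ^ n with hφ
  have hφ0 : 0 < φ := by positivity
  -- periodicity
  have hstep : ∀ e k : ℕ, (3 : ℤ) ^ (n + 1) ∣ 2 ^ (e + φ * k) * a - 2 ^ e * a := by
    intro e k
    have h1 : (3 : ℤ) ^ (n + 1) ∣ 2 ^ φ - 1 := ⟨u, by rw [hu]; ring⟩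
    have h2 : (2 : ℤ) ^ φ - 1 ∣ (2 ^ φ) ^ k - 1 ^ k := sub_dvd_pow_sub_pow _ _ k
    have h3 : (3 : ℤ) ^ (n + 1) ∣ (2 ^ φ) ^ k - 1 := by
      have := h1.trans h2
      rwa [one_pow] at this
    have e1 : (2 : ℤ) ^ (e + φ * k) * a - 2 ^ e * a = ((2 ^ φ) ^ k - 1) * (2 ^ e * a) := by
      rw [pow_add, pow_mul]
      ring
    rw [e1]
    exact h3.mul_right _
  -- pick the representative
  obtain ⟨e, h1, h2, k, k', hk⟩ : ∃ e : ℕ, E1 ≤ e ∧ e < E1 + φ ∧ ∃ k k' : ℕ, e + φ * k = e0 + φ * k' := by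
    have hlt := Nat.mod_lt (e0 + φ * E1 - E1) hφ0
    have hge : E1 ≤ φ * E1 := by nlinarith
    refine ⟨E1 + (e0 + φ * E1 - E1) % φ, by omega, by omega, (e0 + φ * E1 - E1) / φ, E1, ?_⟩
    have := Nat.mod_add_div (e0 + φ * E1 - E1) φ
    omega
  have h3 : (3 : ℤ) ^ (n + 1) ∣ 2 ^ e * a - c := by
    have a1 := hstep e k
    have a2 := hstep e0 k'
    rw [hk] at a1
    have a3 := dvd_sub (dvd_add a2 he0) a1
    have e1 : (2 : ℤ) ^ (e0 + φ * k') * a - 2 ^ e0 * a + (2 ^ e0 * a - c) - (2 ^ (e0 + φ * k') * a - 2 ^ e * a) =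
        2 ^ e * a - c := by ring
    rwa [e1] at a3
  refine ⟨e, h1, h2, h3, ?_⟩
  have a1 := hstep e 1
  rw [mul_one] at a1
  have a3 := dvd_add a1 h3
  have e1 : (2 : ℤ) ^ (e + φ) * a - 2 ^ e * a + (2 ^ e * a - c) = 2 ^ (e + φ) * a - c := by ring
  rwa [e1] at a3

theorem T_two_mul (n : ℤ) : T (2 * n) = n := by
  have := T_even (n := 2 * n) (by omega)
  omega

theorem T_iter_two (j : ℕ) : ∀ (i : ℕ) (a : ℤ), T^[j] (2 ^ (i + j) * a) = 2 ^ i * a := by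
  induction j with
  | zero => intro i a; simp
  | succ j ih =>
    intro i a
    rw [Function.iterate_succ_apply]
    have e : (2 : ℤ) ^ (i + (j + 1)) * a = 2 * (2 ^ (i + j) * a) := by ring
    rw [e, T_two_mul]
    exact ih i a

/-- the first step from `(2 ^ (e + 1) * a - 1) / 3` -/
theorem T_first (e : ℕ) (a X : ℤ) (h : 3 * X = 2 ^ (e + 1) * a - 1) : T X = 2 ^ e * a := by
  have h2 : X % 2 = 1 := by
    have e1 : (2 : ℤ) ^ (e + 1) * a = 2 * (2 ^ e * a) := by ring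
    rw [e1] at h
    omega
  have := T_odd h2
  have e1 : (2 : ℤ) ^ (e + 1) * a = 2 * (2 ^ e * a) := by ring
  rw [e1] at h
  omega

theorem fix_mul {X : ℤ} {j : ℕ} (h : T^[j] X = X) (i : ℕ) : T^[j * i] X = X := by
  rw [Function.iterate_mul]
  induction i with
  | zero => rfl
  | succ i ih => rw [Function.iterate_succ_apply, h, ih]

theorem fix_iter {X : ℤ} {m : ℕ} (h : T^[m] X = X) (i : ℕ) : T^[m] (T^[i] X) = T^[i] X := by
  rw [← Function.iterate_add_apply, add_comm, Function.iterate_add_apply, h]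

/-- **REACH**: every integer prime to `3` has, at bounded depth, a non-periodic preimage in a prescribed class modulo
`3 ^ K0`, large and of controlled size. -/
theorem reach (K0 : ℕ) (c0 : ℤ) (B : ℕ) : ∃ E : ℕ, ∀ a : ℤ, ¬ (3 : ℤ) ∣ a → ∃ X : ℤ, ∃ e : ℕ,
    e ≤ E ∧ T^[e] X = a ∧ (3 : ℤ) ^ K0 ∣ X - c0 ∧ (B : ℤ) ≤ |X| ∧ |X| ≤ 2 ^ e * |a| ∧
      ∀ j : ℕ, 1 ≤ j → T^[j] X ≠ X := by
  refine ⟨3 * B + 2 + 2 * 3 ^ K0 + 2 * 3 ^ K0, ?_⟩
  intro a ha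
  have hc : ¬ (3 : ℤ) ∣ 3 * c0 + 1 := by omega
  obtain ⟨e, h1, h2, h3, h4⟩ := two_reach_range K0 (3 * B + 2) a (3 * c0 + 1) ha hc
  set φ := 2 * 3 ^ K0 with hφ
  have hφ0 : 0 < φ := by positivity
  have ha0 : a ≠ 0 := by
    rintro rfl
    exact ha (dvd_zero _)
  have ha1 : 1 ≤ |a| := Int.one_le_abs ha0
  -- the general candidate
  have cand : ∀ e : ℕ, 3 * B + 2 ≤ e → (3 : ℤ) ^ (K0 + 1) ∣ 2 ^ e * a - (3 * c0 + 1) →
      ∃ X : ℤ, 3 * X = 2 ^ e * a - 1 ∧ T^[e] X = a ∧ (3 : ℤ) ^ K0 ∣ X - c0 ∧ (B : ℤ) ≤ |X| ∧ |X| ≤ 2 ^ e * |a| := by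
    intro e he hd
    obtain ⟨w, hw⟩ := hd
    have hX : 3 * (c0 + 3 ^ K0 * w) = 2 ^ e * a - 1 := by
      have : (3 : ℤ) ^ (K0 + 1) * w = 3 * (3 ^ K0 * w) := by ring
      rw [this] at hw
      linarith
    refine ⟨c0 + 3 ^ K0 * w, hX, ?_, ⟨w, by ring⟩, ?_, ?_⟩
    · obtain ⟨e', rfl⟩ : ∃ e', e = e' + 1 := ⟨e - 1, by omega⟩
      rw [Function.iterate_succ_apply, T_first e' a _ hX]
      have := T_iter_two e' 0 a
      rw [zero_add, pow_zero, one_mul] at this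
      exact this
    · -- size from below
      have h5 : (e : ℤ) < 2 ^ e := by exact_mod_cast Nat.lt_two_pow_self
      have h6 : |2 ^ e * a| = 2 ^ e * |a| := by rw [abs_mul, abs_of_pos (by positivity)]
      have h7 : 2 ^ e * |a| ≤ 3 * |c0 + 3 ^ K0 * w| + 1 := by
        rw [← h6]
        have e1 : (2 : ℤ) ^ e * a = 3 * (c0 + 3 ^ K0 * w) + 1 := by linarith
        rw [e1]
        calc |3 * (c0 + 3 ^ K0 * w) + 1| ≤ |3 * (c0 + 3 ^ K0 * w)| + |1| := abs_add_le _ _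
          _ = 3 * |c0 + 3 ^ K0 * w| + 1 := by rw [abs_mul]; norm_num
      have h8 : (2 : ℤ) ^ e ≤ 2 ^ e * |a| := by
        nlinarith [pow_pos (show (0 : ℤ) < 2 by norm_num) e]
      have h9 : (3 * (B : ℤ) + 2) ≤ e := by exact_mod_cast he
      linarith
    · have h6 : |2 ^ e * a| = 2 ^ e * |a| := by rw [abs_mul, abs_of_pos (by positivity)]
      have h7 : 3 * |c0 + 3 ^ K0 * w| ≤ 2 ^ e * |a| + 1 := by
        rw [← h6]
        calc 3 * |c0 + 3 ^ K0 * w| = |3 * (c0 + 3 ^ K0 * w)| := by rw [abs_mul]; norm_num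
          _ = |2 ^ e * a - 1| := by rw [hX]
          _ ≤ |2 ^ e * a| + |1| := abs_sub _ _
          _ = |2 ^ e * a| + 1 := by norm_num
      have h8 : (1 : ℤ) ≤ 2 ^ e * |a| := by
        have : (1 : ℤ) ≤ 2 ^ e := one_le_pow₀ (by norm_num)
        nlinarith
      linarith
  obtain ⟨X, hX, b1, b2, b3, b4⟩ := cand e h1 h3
  by_cases hper : ∀ j : ℕ, 1 ≤ j → T^[j] X ≠ X
  · exact ⟨X, e, by omega, b1, b2, b3, b4, hper⟩
  push Not at hper
  obtain ⟨i, hi, hXi⟩ := hper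
  obtain ⟨Y, hY, d1, d2, d3, d4⟩ := cand (e + φ) (by omega) h4
  refine ⟨Y, e + φ, by omega, d1, d2, d3, d4, ?_⟩
  intro j hj hYj
  -- both points are fixed by `T ^ (i * j)`
  have hXm : T^[i * j] X = X := fix_mul hXi j
  have hYm : T^[i * j] Y = Y := by
    rw [mul_comm]
    exact fix_mul hYj i
  obtain ⟨e', rfl⟩ : ∃ e', e = e' + 1 := ⟨e - 1, by omega⟩
  obtain ⟨φ', hφ'⟩ : ∃ φ', φ = φ' + 1 := ⟨φ - 1, by omega⟩
  -- `T X = 2 ^ e' * a`, `T ^ φ Y = 2 ^ (e' + 1) * a`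
  have f1 : T X = 2 ^ e' * a := T_first e' a X hX
  have f2 : T^[φ] Y = 2 ^ (e' + 1) * a := by
    rw [hφ', Function.iterate_succ_apply]
    have e1 : e' + 1 + φ = (e' + 1 + φ') + 1 := by omega
    rw [e1] at hY
    rw [T_first (e' + 1 + φ') a Y hY]
    exact T_iter_two φ' (e' + 1) a
  have f3 : T (T^[φ] Y) = T X := by
    rw [f1, f2]
    have e1 : (2 : ℤ) ^ (e' + 1) * a = 2 * (2 ^ e' * a) := by ring
    rw [e1, T_two_mul]
  have g1 : T^[i * j] (T^[φ] Y) = T^[φ] Y := fix_iter hYm φ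
  obtain ⟨m, hm⟩ : ∃ m, i * j = m + 1 := ⟨i * j - 1, by have := Nat.mul_pos (show 0 < i by omega) (show 0 < j by omega); omega⟩
  have g2 : T^[φ] Y = X := by
    rw [← g1, ← hXm, hm, Function.iterate_succ_apply, Function.iterate_succ_apply, f3]
  rw [f2] at g2
  -- `X = 2 ^ (e' + 1) * a` contradicts `3 X = 2 ^ (e' + 1) * a - 1`
  rw [← g2] at hX
  have e1 : (2 : ℤ) ^ (e' + 1) * a = 2 * (2 ^ e' * a) := by ring
  rw [e1] at hX
  omega

end Pool.Agent.Helper25.PD
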